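import Mathlib
import Pool.Agent.R127.VeeThree

/-!
# The largest strong `∨₂`-free sets in `[k]^3` have density at least `7/5`

This disproves the conjecture that `La⋆([k]^d, ∨₂) = (1 + 1/d + o(1)) w_{k,d}` for every `d ≥ 3`:
for `d = 3` the lower limit of `La⋆([k]^3, ∨₂) / w_{k,3}` is at least `7/5 > 4/3`.
-/

namespace Pool.Agent.Results.MP_8ac0e4_co.SevenFifths

open Filter Topology Pool.Agent.R127.GridThree Pool.Agent.R127.VeeThree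

/-- The grid `[k]^d`: the functions `Fin d → ℕ` with values in `{1, ..., k}`. -/
def Grid (d k : ℕ) : Finset (Fin d → ℕ) := Fintype.piFinset fun _ => Finset.Icc 1 k

/-- The finite set `F` of points contains no strong (induced) copy of the poset `∨₂` (`a < b₁`,
`a < b₂`, `b₁` and `b₂` incomparable). -/
def StrongVeeFree {d : ℕ} (F : Finset (Fin d → ℕ)) : Prop :=
  ¬ ∃ a ∈ F, ∃ b₁ ∈ F, ∃ b₂ ∈ F, a < b₁ ∧ a < b₂ ∧ ¬ b₁ ≤ b₂ ∧ ¬ b₂ ≤ b₁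

/-- `La⋆([k]^d, ∨₂)`: the largest size of a strong `∨₂`-free subset of `[k]^d`. -/
noncomputable def La (d k : ℕ) : ℕ := sSup {n | ∃ F ⊆ Grid d k, StrongVeeFree F ∧ F.card = n}

/-- `w_{k,d}`: the largest size of an antichain in `[k]^d`. -/
noncomputable def width (d k : ℕ) : ℕ :=
  sSup {n | ∃ A ⊆ Grid d k, IsAntichain (· ≤ ·) (A : Set (Fin d → ℕ)) ∧ A.card = n}

theorem bound (ε : ℝ) (hε : 0 < ε) (k : ℕ) (hk : 80 / ε + 10 ≤ k) :
    0 < (width 3 k : ℝ) ∧ (7 / 5 - ε) * (width 3 k : ℝ) ≤ (La 3 k : ℝ) := by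
  have hk10 : (10 : ℝ) ≤ k := by
    have : 0 < 80 / ε := by positivity
    linarith
  have hkn : 2 ≤ k := by
    have : (2 : ℝ) ≤ k := by linarith
    exact_mod_cast this
  have hεk : 80 ≤ ε * k := by
    have h1 : 80 / ε ≤ k := by linarith
    rw [div_le_iff₀ hε] at h1
    linarith
  have h1 : (width 3 k : ℝ) ≤ 3 / 4 * (k : ℝ) ^ 2 + 1 := w_le k
  have h2 : 3 / 4 * (k : ℝ) ^ 2 - 6 ≤ (width 3 k : ℝ) := le_w k hkn
  have h3 := card_Fam_ge k hkn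
  have h4 : (Fam k (k / 2 - 1 + k + 1)).card ≤ La 3 k := by
    unfold La
    exact le_sSup_card (Q := fun A => VeeFree A) (Fam_subset _ _) (Fam_free _ _)
  have h5 : ((Fam k (k / 2 - 1 + k + 1)).card : ℝ) ≤ (La 3 k : ℝ) := by exact_mod_cast h4
  have h6 : 0 < (width 3 k : ℝ) := by nlinarith
  refine ⟨h6, ?_⟩
  have h7 : ε * (3 / 4 * (k : ℝ) ^ 2 - 6) ≤ ε * (width 3 k : ℝ) :=
    mul_le_mul_of_nonneg_left h2 hε.le
  have h8 : (7 / 5 : ℝ) * (7 + 20 * k) ≤ ε * (3 / 4 * (k : ℝ) ^ 2 - 6) := by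
    have e1 : 80 * (k : ℝ) ≤ ε * k * k := by nlinarith
    have e2 : ε * 6 ≤ ε * (6 / 100 * (k : ℝ) ^ 2) := by
      apply mul_le_mul_of_nonneg_left _ hε.le
      nlinarith
    nlinarith
  nlinarith

/-- For every `ε > 0` and all large `k`, `La⋆([k]^3, ∨₂) / w_{k,3} ≥ 7/5 - ε`; and hence the ratio
`La⋆([k]^3, ∨₂) / w_{k,3}` does not converge to `1 + 1/3`. -/
theorem result :
    (∀ ε : ℝ, 0 < ε → ∀ᶠ k : ℕ in atTop, 7 / 5 - ε ≤ (La 3 k : ℝ) / (width 3 k : ℝ)) ∧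
    ¬ Tendsto (fun k : ℕ => (La 3 k : ℝ) / (width 3 k : ℝ)) atTop (𝓝 (1 + 1 / 3)) := by
  have h1 : ∀ ε : ℝ, 0 < ε → ∀ᶠ k : ℕ in atTop, 7 / 5 - ε ≤ (La 3 k : ℝ) / (width 3 k : ℝ) := by
    intro ε hε
    filter_upwards [(tendsto_natCast_atTop_atTop (R := ℝ)).eventually_ge_atTop (80 / ε + 10)]
      with k hk
    obtain ⟨h1, h2⟩ := bound ε hε k hk
    rw [le_div_iff₀ h1]
    exact h2
  refine ⟨h1, fun h => ?_⟩
  have h2 := h1 (1 / 30) (by norm_num)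
  have h3 := h.eventually_lt_const (show (1 + 1 / 3 : ℝ) < 7 / 5 - 1 / 30 by norm_num)
  obtain ⟨k, hk⟩ := (h2.and h3).exists
  exact absurd (lt_of_le_of_lt hk.1 hk.2) (lt_irrefl _)

end Pool.Agent.Results.MP_8ac0e4_co.SevenFifths
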